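import Pool.Agent.Lib.MP_67d80e_pr_u2.Chk0
import Pool.Agent.Lib.MP_67d80e_pr_u2.Chk1
import Pool.Agent.Lib.MP_67d80e_pr_u2.Chk2
import Pool.Agent.Lib.MP_67d80e_pr_opt.HasUB

/-!
The functional of the table of option labels, dimension 2.
-/

set_option autoImplicit false
set_option maxRecDepth 100000

namespace Pool.Agent.Lib.MP_67d80e_pr_u2

open Pool.Agent.Lib.MP_67d80e_pr Pool.Agent.Lib.MP_67d80e_pr_all Pool.Agent.Lib.MP_67d80e_pr_lab Pool.Agent.Lib.MP_67d80e_pr_opt

theorem chk_all : ∀ i < cst.N, ∃ x, chk cst i x = 0 := by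
  intro i hi
  change i < 6731 at hi
  by_cases h3072 : i < 3072
  · exact errL_spec chk_0 i (by omega) h3072
  by_cases h6144 : i < 6144
  · exact errL_spec chk_3072 i (by omega) h6144
  exact errL_spec chk_6144 i (by omega) hi

theorem hasPsi_all : ∃ Ψ, HasPsi 1 (41 / 20) (336170 / 100000) Ψ := by
  have h := hasPsi_of_chk cst_ok root_ok chk_all
  have h1 : cst.q = 41 / 20 := by unfold PC.q cst; norm_num
  have h2 : cst.lam = 336170 / 100000 := by unfold PC.lam cst; norm_num
  rwa [h1, h2] at h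

/-- the upper bound in dimension 2 -/
theorem hasUB : HasUB 1 (46832 / 10000) :=
  hasUB_psi (a := 145) (b := 202) hasPsi_all (by norm_num) (by norm_num) (by norm_num) (by norm_num)
    (by norm_num) (by norm_num)

end Pool.Agent.Lib.MP_67d80e_pr_u2
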