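import Pool.Agent.Lib.MP_67d80e_pr_u2.Data0

/-!
The table of option labels, dimension 2.
-/

set_option autoImplicit false
set_option maxRecDepth 100000

namespace Pool.Agent.Lib.MP_67d80e_pr_u2

open Pool.Agent.Lib.MP_67d80e_pr_lab Pool.Agent.Lib.MP_67d80e_pr_opt

/-- all entries -/
noncomputable def data : Tr :=
  (.N (.N data0 data2) (.N data1 data3))

/-- symmetries -/
def sgt : Tr :=
  .N (.L 0x6c006b006a0069006800670066006500640000000000610060005f005e005d005c005b005a0059000000000056005500540053005200510050004f004e00000000004b004a0049004800470046004500440043000000000040003f003e003d003c003b003a0039003800000000003500340033003200310030002f002e002d00000000002a0029002800270026002500240023002200000000001f001e001d001c001b001a0019001800170000000000140013001200110010000f000e000d000c000000000000000000000000000000000000000000000000) (.L 0x140013001200110010000f000e000d000c00000000001f001e001d001c001b001a00190018001700000000002a0029002800270026002500240023002200000000003500340033003200310030002f002e002d000000000040003f003e003d003c003b003a0039003800000000004b004a0049004800470046004500440043000000000056005500540053005200510050004f004e0000000000610060005f005e005d005c005b005a005900000000006c006b006a006900680067006600650064000000000000000000000000000000000000000000000000)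

/-- positions of the options -/
def dt (o : ℕ) : ℕ := t16 0x310047003b003d003c o

/-- star patterns -/
def rp (k : ℕ) : ℕ :=
  Nat.rec 0x1000000000000000000000000000401c01 (fun k _ => Nat.rec 0x2000000000000000000000000000803802000000000000000000000000401c01 (fun k _ => Nat.rec 0x4000000000000000000000000001007004000000000000000000000000803802000000000000000000000000401c01 (fun k _ => Nat.rec 0x800000000000000000000000000200e008000000000000000000000001007004000000000000000000000000803802000000000000000000000000401c01 (fun _ _ => 0x401c01000000000000000000000000200e008000000000000000000000001007004000000000000000000000000803802000000000000000000000000401c01) k) k) k) k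

/-- generators -/
def gens : List Gen := [.refl 1]

/-- the table -/
noncomputable def cst : PC :=
  ⟨121, 11, 60, 5, 605, 0x20000000000000000000000000000000000000000000000000000000000000000000000000000000000000000000000000000000000000000000000000000000000000000000000000000000, rp, 0x1ff3fe7fcff9ef3fe7fcff9ff000000ff9ff3fe7fcf79ff3fe7fcff8000007fcff9ff3fe7bcff9ff3fe7fc000003fe7fcff9ff3de7fcff9ff3fe000001ff3fe7fcff9ef3fe7fcff9ff000, 0x802802000000000000000000000000401401000000000000000000000000200a008000000000000000000000000000000000000000000000000000000000000000000000000, dt, sgT sgt, 41, 20, 336170, 100000, 0x10000000000000000000, 10, 1024, 28, 268435456, 6731,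
    getV data 264 0x1000000000000000000000000000000000000000000000000000000000000000000⟩

theorem sg_ok : rS (Bs 4) (Bs 4 ^ 1) cst.mIn (ofs 1 4) gens (fun p => p) sgt = true := by
  decide +kernel

theorem in_ok : inC (Bs 4) (Pn 1 4) (Bs 4 ^ 1) (ofs 1 4) (1 + 1) 5 cst.mIn = true := by
  decide +kernel

theorem cst_ok : POk 1 4 5 cst := by
  refine pok (gens := gens) (by norm_num) (by norm_num) (by norm_num) (by decide +kernel)
    (by decide +kernel) (by decide +kernel) (by decide +kernel) (by decide +kernel)
    (by decide +kernel) (by decide +kernel) in_ok (by decide +kernel) (by decide +kernel)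
    (by decide +kernel) (fun h _ hy => rS_spec in_ok sg_ok h hy) ?_ (by decide +kernel) (by decide +kernel)
    (by decide +kernel) (by decide +kernel)
  intro g hg
  simp only [gens, List.mem_cons, List.not_mem_nil, or_false] at hg
  subst hg
  unfold Gen.Ok; norm_num

/-- the labels without sites -/
def rt (o : ℕ) : ℕ := Nat.mod (Nat.shiftRight 0x101a47000001a470000013eb0000012b3000000c52 (Nat.mul 36 o)) 68719476736

theorem root_ok : root cst rt = true := by decide +kernel

end Pool.Agent.Lib.MP_67d80e_pr_u2
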